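import Mathlib
import Pool.Agent.H85.FG.U1
import Pool.Agent.H85.FG.U2

/-!
# U3, lemma `bet`: if exactly one member of a list is true, the number of true members is 1 modulo m
-/

set_option autoImplicit false

namespace Pool.Agent.H39.FG

open Pool.Agent.H3.Frg Pool.Agent.H3.Frg2 Pool.Agent.H67.FG Pool.Agent.H85.FG

variable {V : Type} {m k M : ℕ} {Hyp : Set (Fo V)}

/-- letters of the schemes -/
def lt5 (a b c d e : Fo V) : ℕ → Fo V
  | 0 => a
  | 1 => b
  | 2 => c
  | 3 => d
  | _ => e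

/-- the scheme `(d → o) → ((¬d → e) → ((x → ¬d) → ((¬x → d) → o')))` -/
def sch : Fm ℕ :=
  .imp (.imp (.var 0) (.var 1)) (.imp (.imp (.neg (.var 0)) (.var 2)) (.imp (.imp (.var 3) (.neg (.var 0)))
    (.imp (.imp (.neg (.var 3)) (.var 0)) (.var 4))))

theorem bet (hk : 40 ≤ k)
    (hgam : ∀ {x : V} (y : Fo V) (Y : List (Fo V)), (∀ B ∈ y :: Y, ∃ z, B = .var z) → Y.length + 1 ≤ M →
      (∀ B ∈ y :: Y, .imp (.var x) (.neg B) ∈ Hyp) →
      Can m k Hyp (Bd (30 * M) 8 3) (5 * (Y.length + 1)) (.imp (.var x) (.neg (dj y Y))))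
    (halp : ∀ (x : Fo V) (Y : List (Fo V)), (∀ B ∈ x :: Y, ∃ z, B = .var z) → Y.length + 1 ≤ M →
      Can m k Hyp (Bd (30 * M) 8 3) (3 * (Y.length + 1)) (.imp (.neg (dj x Y)) (gt 0 (x :: Y))))
    (x : Fo V) (Y : List (Fo V)) (hY : ∀ B ∈ x :: Y, ∃ z, B = .var z) (hM : Y.length + 1 ≤ M)
    (hex : List.Pairwise (fun A B => .imp A (.neg B) ∈ Hyp) (x :: Y)) :
    Can m k Hyp (Bd (30 * M) 8 3) (12 * (Y.length + 1) ^ 2) (.imp (dj x Y) (gt 1 (x :: Y))) := by
  induction Y generalizing x with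
  | nil =>
    refine can_mono (can_ax (.imp (.var 0) (.var 1)) (lt5 x (gt 1 [x]) x x x) ?_ ?_ ?_) (by simp)
    · show 3 ≤ k
      omega
    · intro v hv
      have h1 := resp_gt hv 1 [x]
      show (!(v x) || v (gt 1 [x])) = true
      rw [h1]
      cases h2 : v x <;> simp [h2]
    · obtain ⟨z, hz⟩ := hY x (by simp)
      subst hz
      refine Bd_mono (Bd_imp (Bd_var z) (Bd_gt 1 (X := [.var z]) (by simp))) ?_ ?_ ?_
      · simp only [List.length_cons, List.length_nil] at hM ⊢
        omega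
      · decide
      · decide
  | cons y Y ih =>
    have hY' : ∀ B ∈ y :: Y, ∃ z, B = .var z := fun B hB => hY B (List.mem_cons_of_mem _ hB)
    obtain ⟨hex1, hex2⟩ := List.pairwise_cons.1 hex
    have hM' : Y.length + 1 + 1 ≤ M := by simpa using hM
    obtain ⟨z, hz⟩ := hY x (by simp)
    have hx : Bd 1 0 0 x := by rw [hz]; exact Bd_var z
    have hd : Bd (3 * Y.length + 1) 2 0 (dj y Y) := Bd_dj hY'
    have ho : Bd (Y.length + 2) 0 1 (gt 1 (y :: Y)) := Bd_gt 1 hY'
    have he : Bd (Y.length + 2) 0 1 (gt 0 (y :: Y)) := Bd_gt 0 hY'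
    have ho' : Bd (Y.length + 3) 0 1 (gt 1 (x :: y :: Y)) := Bd_gt 1 hY
    have b4 := Bd_imp (Bd_imp (Bd_neg hx) hd) ho'
    have b3 := Bd_imp (Bd_imp hx (Bd_neg hd)) b4
    have b2 := Bd_imp (Bd_imp (Bd_neg hd) he) b3
    have b1 := Bd_imp (Bd_imp hd ho) b2
    have hax : Can m k Hyp (Bd (30 * M) 8 3) 1 (inst (lt5 (dj y Y) (gt 1 (y :: Y)) (gt 0 (y :: Y)) x
        (gt 1 (x :: y :: Y))) sch) := by
      refine can_ax _ _ ?_ ?_ ?_
      · show 20 ≤ k
        omega
      · intro v hv
        have h1 := resp_gt hv 1 (y :: Y)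
        have h2 := resp_gt hv 0 (y :: Y)
        have h3 := resp_gt hv 1 (x :: y :: Y)
        rw [List.countP_cons] at h3
        show (!(!(v (dj y Y)) || v (gt 1 (y :: Y))) || (!(!(!(v (dj y Y))) || v (gt 0 (y :: Y))) ||
          (!(!(v x) || !(v (dj y Y))) || (!(!(!(v x)) || v (dj y Y)) || v (gt 1 (x :: y :: Y)))))) = true
        rw [h1, h2, h3]
        generalize List.countP v (y :: Y) = c
        have hc : c % m = 0 % m → (c + 1) % m = 1 % m := fun h => by
          rw [Nat.add_mod, h, ← Nat.add_mod, zero_add]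
        cases h4 : v x <;> cases h5 : v (dj y Y)
        · simp
        · simp
        · by_cases hd : c % m = 0 % m
          · simp [hc hd]
          · have hd' : decide (c % m = 0 % m) = false := decide_eq_false hd
            rw [hd']
            simp
        · simp
      · exact Bd_mono b1 (by omega) (by decide) (by decide)
    have h1 := can_mp (ih y hY' (by omega) hex2) hax (Bd_mono b2 (by omega) (by decide) (by decide))
    have h2 := can_mp (halp y Y hY' (by omega)) h1 (Bd_mono b3 (by omega) (by decide) (by decide))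
    have hg := hgam (x := z) y Y hY' (by omega) (by rw [← hz]; exact hex1)
    rw [← hz] at hg
    have h3 := can_mp hg h2 (Bd_mono b4 (by omega) (by decide) (by decide))
    refine can_mono h3 ?_
    simp only [List.length_cons]
    nlinarith [Nat.zero_le Y.length]

end Pool.Agent.H39.FG
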